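import Pool.Agent.Q178.WM.G

/-!
# The weak maximizing property does not pass to closed subspaces of the domain

Negative answer to MP_33858f_an, Q1, for real and for complex scalars.

The space `Esp` consists of functions on the nodes of a finitely branching tree; every node of
level `i` has a weight `2^{-k}`, `k ≤ i + 1`, the squares of the weights along a branch add up to at
most two, and the norm is `sup (∑_j v_j^4)^{1/4}` over successive segments `S_j`, where `v_j` is the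
weighted sum `∑_{t ∈ S_j} w_t |h t| / (∑_{t ∈ S_j} w_t^2)^{1/2}`.  Every bounded operator from
`Esp × 𝕜` (with the maximum norm) into a space `Y` isomorphic to a Hilbert space attains its norm,
but `Y` itself is the subspace of the level constant functions in `Esp`, and the diagonal operator
`(h, s) ↦ ((1 - 1/(i+2)) h_i)_i` on `Y × 𝕜` has a maximizing sequence which is not weakly null and
does not attain its norm.
-/

set_option autoImplicit false

open Filter Topology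

namespace Pool.Agent.Results.MP_33858f_an.NotHereditary

/-- `T` attains its norm at a unit vector. -/
def AttainsNorm {𝕜 E F : Type} [RCLike 𝕜] [NormedAddCommGroup E] [NormedSpace 𝕜 E]
    [NormedAddCommGroup F] [NormedSpace 𝕜 F] (T : E →L[𝕜] F) : Prop :=
  ∃ x : E, ‖x‖ = 1 ∧ ‖T x‖ = ‖T‖

/-- `x` is a maximizing sequence for `T`. -/
def IsMaximizing {𝕜 E F : Type} [RCLike 𝕜] [NormedAddCommGroup E] [NormedSpace 𝕜 E]
    [NormedAddCommGroup F] [NormedSpace 𝕜 F] (T : E →L[𝕜] F) (x : ℕ → E) : Prop :=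
  (∀ n, ‖x n‖ = 1) ∧ Tendsto (fun n => ‖T (x n)‖) atTop (𝓝 ‖T‖)

/-- `x` is weakly null. -/
def WeaklyNull (𝕜 : Type) {E : Type} [RCLike 𝕜] [NormedAddCommGroup E] [NormedSpace 𝕜 E]
    (x : ℕ → E) : Prop :=
  ∀ φ : E →L[𝕜] 𝕜, Tendsto (fun n => φ (x n)) atTop (𝓝 0)

/-- The weak maximizing property of the pair `(E, F)`. -/
def WMP (𝕜 E F : Type) [RCLike 𝕜] [NormedAddCommGroup E] [NormedSpace 𝕜 E]
    [NormedAddCommGroup F] [NormedSpace 𝕜 F] : Prop :=
  ∀ T : E →L[𝕜] F, (∃ x : ℕ → E, IsMaximizing T x ∧ ¬ WeaklyNull 𝕜 x) → AttainsNorm T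

open Pool.Agent.Q178.WM

section

variable {𝕜 : Type} [RCLike 𝕜]

/-- The diagonal coefficients. -/
noncomputable def d (i : ℕ) : ℝ := 1 - 1 / ((i : ℝ) + 2)

theorem d_nonneg (i : ℕ) : 0 ≤ d i := by
  unfold d
  have : 1 / ((i : ℝ) + 2) ≤ 1 := by
    rw [div_le_one (by positivity)]
    have : (0 : ℝ) ≤ i := Nat.cast_nonneg i
    linarith
  linarith

theorem d_lt_one (i : ℕ) : d i < 1 := by
  unfold d
  have : 0 < 1 / ((i : ℝ) + 2) := by positivity
  linarith

theorem d_mono {i j : ℕ} (h : i ≤ j) : d i ≤ d j := by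
  unfold d
  have h1 : (i : ℝ) ≤ j := by exact_mod_cast h
  have h2 : 1 / ((j : ℝ) + 2) ≤ 1 / ((i : ℝ) + 2) :=
    one_div_le_one_div_of_le (by positivity) (by linarith)
  linarith

theorem tendsto_d : Tendsto d atTop (𝓝 1) := by
  have h1 : Tendsto (fun i : ℕ => 1 / ((i : ℝ) + 2)) atTop (𝓝 0) := by
    have h2 : Tendsto (fun i : ℕ => (i : ℝ) + 2) atTop atTop :=
      tendsto_atTop_add_const_right _ _ tendsto_natCast_atTop_atTop
    exact h2.const_div_atTop 1
  have := h1.const_sub 1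
  rw [sub_zero] at this
  exact this

theorem norm_d (i : ℕ) : ‖((d i : ℝ) : 𝕜)‖ = d i := by
  rw [RCLike.norm_ofReal, abs_of_nonneg (d_nonneg i)]

theorem d_dom (h : Esp 𝕜) (x : Br) (i : ℕ) : ‖((d i : ℝ) : 𝕜) * h.f x i‖ ≤ ‖h.f x i‖ := by
  rw [norm_mul, norm_d]
  exact mul_le_of_le_one_left (norm_nonneg _) (d_lt_one i).le

theorem d_cons (h : Esp 𝕜) : Cons fun (x : Br) (i : ℕ) => ((d i : ℝ) : 𝕜) * h.f x i := by
  intro x y i H
  dsimp only
  rw [h.cons x y i H]

variable (𝕜) in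
/-- The diagonal operator. -/
noncomputable def Dop : Esp 𝕜 →L[𝕜] Esp 𝕜 :=
  LinearMap.mkContinuous
    { toFun := fun h => dom h (fun x i => ((d i : ℝ) : 𝕜) * h.f x i) (d_cons h) (d_dom h)
      map_add' := fun g h => Esp.ext' fun x i => by
        show ((d i : ℝ) : 𝕜) * (g.f x i + h.f x i) = _ * g.f x i + _ * h.f x i
        ring
      map_smul' := fun c h => Esp.ext' fun x i => by
        show ((d i : ℝ) : 𝕜) * (c * h.f x i) = c * (_ * h.f x i)
        ring } 1 (fun h => by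
      rw [one_mul]
      exact norm_le_norm (d_dom h))

theorem Dop_f (h : Esp 𝕜) (x : Br) (i : ℕ) : (Dop 𝕜 h).f x i = ((d i : ℝ) : 𝕜) * h.f x i := rfl

theorem norm_Dop_lt {h : Esp 𝕜} (hh : h ≠ 0) : ‖Dop 𝕜 h‖ < ‖h‖ := by
  have hpos : 0 < ‖h‖ := norm_pos_iff.2 hh
  obtain ⟨n, hn⟩ := tail_small h (half_pos hpos)
  have hn' := hn n le_rfl
  set t := res (fun _ i => n ≤ i) (consP_lev _) h with ht
  have h1 : ‖Dop 𝕜 h‖ ≤ ‖((d n : ℝ) : 𝕜) • h + (((1 - d n : ℝ)) : 𝕜) • t‖ := by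
    refine norm_le_norm fun x i => ?_
    rw [Dop_f, f_add, f_smul, f_smul]
    rcases le_or_gt n i with hi | hi
    · rw [ht, res_pos _ _ hi, ← add_mul]
      have : ((d n : ℝ) : 𝕜) + ((1 - d n : ℝ) : 𝕜) = 1 := by
        rw [← RCLike.ofReal_add]; simp
      rw [this, one_mul]
      exact d_dom h x i
    · rw [ht, res_neg _ _ (by omega), mul_zero, add_zero, norm_mul, norm_mul, norm_d, norm_d]
      exact mul_le_mul_of_nonneg_right (d_mono hi.le) (norm_nonneg _)
  refine h1.trans_lt ((norm_add_le _ _).trans_lt ?_)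
  rw [norm_smul, norm_smul, norm_d, RCLike.norm_ofReal, abs_of_nonneg (by linarith [d_lt_one n])]
  have h2 := d_lt_one n
  have h3 : (1 - d n) * ‖t‖ ≤ (1 - d n) * (‖h‖ / 2) :=
    mul_le_mul_of_nonneg_left hn' (by linarith)
  nlinarith

theorem norm_Dop_le (h : Esp 𝕜) : ‖Dop 𝕜 h‖ ≤ ‖h‖ := norm_le_norm (d_dom h)

variable (𝕜) in
/-- The characteristic function of a level. -/
noncomputable def u (n : ℕ) : Esp 𝕜 :=
  ⟨fun _ i => if i = n then 1 else 0, fun _ _ _ _ => rfl, 1 ^ 4, fun _ hl =>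
    tot_level_le zero_le_one (fun _ _ hi => if_neg hi) (fun _ => by simp) hl⟩

theorem u_f (n : ℕ) (x : Br) (i : ℕ) : (u 𝕜 n).f x i = if i = n then 1 else 0 := rfl

theorem norm_u (n : ℕ) : ‖u 𝕜 n‖ = 1 := by
  refine le_antisymm ?_ ?_
  · exact norm_level_le zero_le_one (fun x i hi => by rw [u_f, if_neg hi])
      (fun x => by rw [u_f, if_pos rfl]; simp)
  · have := apply_le_norm (u 𝕜 n) x0 n
    rw [u_f, if_pos rfl] at this
    simpa using this

theorem u_mem (n : ℕ) : u 𝕜 n ∈ Y 𝕜 := fun _ _ _ => rfl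

theorem Dop_u (n : ℕ) : Dop 𝕜 (u 𝕜 n) = ((d n : ℝ) : 𝕜) • u 𝕜 n := by
  refine Esp.ext' fun x i => ?_
  rw [Dop_f, f_smul, u_f]
  split_ifs with h
  · rw [h]
  · simp

theorem Dop_mem {h : Esp 𝕜} (hh : h ∈ Y 𝕜) : Dop 𝕜 h ∈ Y 𝕜 := by
  intro x y i
  rw [Dop_f, Dop_f, hh x y i]

end

/-- Negative answer to Q1: over the real and over the complex numbers there are Banach spaces
`E, F` and a closed subspace `E₁` of `E` such that the pair `(E, F)` has the weak maximizing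
property, while the pair `(E₁, F)` fails it. -/
theorem result (𝕜 : Type) [RCLike 𝕜] :
    ∃ (E F : Type) (_ : NormedAddCommGroup E) (_ : NormedSpace 𝕜 E) (_ : CompleteSpace E)
      (_ : NormedAddCommGroup F) (_ : NormedSpace 𝕜 F) (_ : CompleteSpace F)
      (E₁ : Submodule 𝕜 E), IsClosed (E₁ : Set E) ∧ WMP 𝕜 E F ∧ ¬ WMP 𝕜 E₁ F := by
  have hY : CompleteSpace (Y 𝕜) := isClosed_Y.completeSpace_coe
  let E₁ : Submodule 𝕜 (Esp 𝕜 × 𝕜) := (Y 𝕜).comap (LinearMap.fst 𝕜 (Esp 𝕜) 𝕜)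
  refine ⟨Esp 𝕜 × 𝕜, Y 𝕜, inferInstance, inferInstance, inferInstance, inferInstance,
    inferInstance, hY, E₁, ?_, ?_, ?_⟩
  · exact isClosed_Y.preimage continuous_fst
  · intro T _
    exact attains_Y T
  · intro hW
    let T : E₁ →L[𝕜] Y 𝕜 :=
      (((Dop 𝕜).comp (ContinuousLinearMap.fst 𝕜 (Esp 𝕜) 𝕜)).comp E₁.subtypeL).codRestrict (Y 𝕜)
        fun z => Dop_mem z.2
    have hTn : ∀ z : E₁, ‖T z‖ = ‖Dop 𝕜 z.1.1‖ := fun z => rfl
    let z : ℕ → E₁ := fun n => ⟨(u 𝕜 n, 1), u_mem n⟩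
    have hz : ∀ n, ‖z n‖ = 1 := by
      intro n
      show max ‖u 𝕜 n‖ ‖(1 : 𝕜)‖ = 1
      rw [norm_u, norm_one, max_self]
    have hTz : ∀ n, ‖T (z n)‖ = d n := by
      intro n
      rw [hTn]
      show ‖Dop 𝕜 (u 𝕜 n)‖ = d n
      rw [Dop_u, norm_smul, norm_u, norm_d, mul_one]
    have hT1 : ‖T‖ = 1 := by
      refine le_antisymm (T.opNorm_le_bound zero_le_one fun y => ?_) ?_
      · rw [hTn, one_mul]
        exact (norm_Dop_le _).trans (le_max_left _ _)
      · refine le_of_tendsto tendsto_d (Eventually.of_forall fun n => ?_)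
        have := T.le_opNorm (z n)
        rwa [hz, mul_one, hTz] at this
    have hmax : IsMaximizing T z := by
      refine ⟨hz, ?_⟩
      rw [hT1]
      simp only [hTz]
      exact tendsto_d
    have hnw : ¬ WeaklyNull 𝕜 z := by
      intro hw
      have := hw ((ContinuousLinearMap.snd 𝕜 (Esp 𝕜) 𝕜).comp E₁.subtypeL)
      have h1 : (fun n => ((ContinuousLinearMap.snd 𝕜 (Esp 𝕜) 𝕜).comp E₁.subtypeL) (z n)) =
          fun _ => (1 : 𝕜) := rfl
      rw [h1] at this
      have h2 := tendsto_nhds_unique this tendsto_const_nhds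
      exact one_ne_zero h2.symm
    obtain ⟨y, hy1, hy2⟩ := hW T ⟨z, hmax, hnw⟩
    rw [hT1, hTn] at hy2
    have hy3 : ‖y.1.1‖ ≤ 1 := by
      have : ‖y.1.1‖ ≤ ‖y.1‖ := le_max_left _ _
      exact this.trans hy1.le
    by_cases h0 : y.1.1 = 0
    · rw [h0, map_zero, norm_zero] at hy2
      exact zero_ne_one hy2
    · have := norm_Dop_lt h0
      linarith

end Pool.Agent.Results.MP_33858f_an.NotHereditary
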